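import Mathlib

set_option autoImplicit false

namespace Pool.Agent.Lib.MP_0775d3_lc

open Finset Polynomial

/-- The order of a product of roots of unity of pairwise distinct prime orders. -/
lemma orderOf_prod_primes {ι : Type} [DecidableEq ι] (s : Finset ι) (q : ι → ℕ)
    (hq : ∀ i, (q i).Prime) (hinj : Function.Injective q) (ζ : ι → ℂ)
    (hζ : ∀ i, IsPrimitiveRoot (ζ i) (q i)) :
    orderOf (∏ i ∈ s, ζ i) = ∏ i ∈ s, q i := by
  induction s using Finset.induction_on with
  | empty => simp
  | insert a s ha ih =>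
    rw [Finset.prod_insert ha, Finset.prod_insert ha, 
      (Commute.all _ _).orderOf_mul_eq_mul_orderOf_of_coprime, ih, ← (hζ a).eq_orderOf]
    rw [ih, ← (hζ a).eq_orderOf]
    apply Nat.Coprime.prod_right
    intro i hi
    rw [Nat.coprime_primes (hq a) (hq i)]
    intro h
    exact ha (hinj h ▸ hi)

lemma totient_prod_primes {ι : Type} [DecidableEq ι] (s : Finset ι) (q : ι → ℕ)
    (hq : ∀ i, (q i).Prime) (hinj : Function.Injective q) :
    Nat.totient (∏ i ∈ s, q i) = ∏ i ∈ s, (q i - 1) := by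
  induction s using Finset.induction_on with
  | empty => simp
  | insert a s ha ih =>
    rw [Finset.prod_insert ha, Finset.prod_insert ha, Nat.totient_mul, ih,
      Nat.totient_prime (hq a)]
    apply Nat.Coprime.prod_right
    intro i hi
    rw [Nat.coprime_primes (hq a) (hq i)]
    intro h
    exact ha (hinj h ▸ hi)

/-- Every power of a primitive `p`-th root of unity is a rational combination of the first
`p - 1` powers. -/
lemma pow_mem_small {p : ℕ} (hp : p.Prime) {z : ℂ} (hz : IsPrimitiveRoot z p) (a : ℕ) :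
    ∃ c : Fin (p - 1) → ℚ, z ^ a = ∑ j : Fin (p - 1), (c j : ℂ) * z ^ (j : ℕ) := by
  have hpos : 0 < p := hp.pos
  have h1 : 1 ≤ p - 1 := by have := hp.two_le; omega
  set Φ : ℚ[X] := cyclotomic p ℚ with hΦ
  have hmon : Φ.Monic := cyclotomic.monic p ℚ
  have hroot : aeval z Φ = 0 := by
    rw [hΦ, cyclotomic_eq_minpoly_rat hz hpos]
    exact minpoly.aeval _ _
  have hdeg : Φ.natDegree = p - 1 := by
    rw [hΦ, natDegree_cyclotomic, Nat.totient_prime hp]
  have hlt : (X ^ a %ₘ Φ).natDegree < p - 1 := by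
    rw [← hdeg]
    apply natDegree_modByMonic_lt _ hmon
    intro h
    have : Φ.natDegree = 0 := by rw [h]; simp
    omega
  refine ⟨fun j => (X ^ a %ₘ Φ).coeff j, ?_⟩
  have h2 := aeval_modByMonic_eq_self_of_root (p := (X ^ a : ℚ[X])) hroot
  rw [aeval_eq_sum_range' hlt] at h2
  simp only [map_pow, aeval_X] at h2
  rw [← h2, Finset.sum_range]
  apply Finset.sum_congr rfl
  intro j _
  rw [Algebra.smul_def]
  simp

/-- Monomials with exponents `< q i - 1` in roots of unity of distinct prime orders `q i` are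
linearly independent over the rationals. -/
lemma cyclo_indep {ι : Type} [Fintype ι] [DecidableEq ι] (q : ι → ℕ)
    (hq : ∀ i, (q i).Prime) (hinj : Function.Injective q) (ζ : ι → ℂ)
    (hζ : ∀ i, IsPrimitiveRoot (ζ i) (q i)) :
    LinearIndependent ℚ (fun e : (∀ i, Fin (q i - 1)) => ∏ i, ζ i ^ (e i : ℕ)) := by
  set b : (∀ i, Fin (q i - 1)) → ℂ := fun e => ∏ i, ζ i ^ (e i : ℕ) with hb
  set V := Submodule.span ℚ (Set.range b) with hV
  have hmem : ∀ a : ι → ℕ, ∏ i, ζ i ^ a i ∈ V := by
    intro a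
    choose c hc using fun i => pow_mem_small (hq i) (hζ i) (a i)
    have : ∏ i, ζ i ^ a i = ∑ e : (∀ i, Fin (q i - 1)), (((∏ i, c i (e i)) : ℚ) : ℂ) * b e := by
      calc ∏ i, ζ i ^ a i = ∏ i, ∑ j : Fin (q i - 1), (c i j : ℂ) * ζ i ^ (j : ℕ) :=
            Finset.prod_congr rfl (fun i _ => hc i)
        _ = ∑ e ∈ Fintype.piFinset (fun i => (Finset.univ : Finset (Fin (q i - 1)))),
              ∏ i, ((c i (e i) : ℂ) * ζ i ^ (e i : ℕ)) := Finset.prod_univ_sum _ _
        _ = _ := by
            rw [Fintype.piFinset_univ]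
            apply Finset.sum_congr rfl
            intro e _
            rw [Finset.prod_mul_distrib]
            push_cast
            rfl
    rw [this]
    apply Submodule.sum_mem
    intro e _
    have h1 : (((∏ i, c i (e i)) : ℚ) : ℂ) * b e = (∏ i, c i (e i)) • b e := by
      rw [Algebra.smul_def]; simp
    rw [h1]
    exact Submodule.smul_mem _ _ (Submodule.subset_span ⟨e, rfl⟩)
  rw [linearIndependent_iff_card_le_finrank_span]
  set z := ∏ i, ζ i with hz
  have hord : orderOf z = ∏ i, q i := orderOf_prod_primes Finset.univ q hq hinj ζ hζ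
  have hNpos : 0 < ∏ i, q i := Finset.prod_pos (fun i _ => (hq i).pos)
  have hprim : IsPrimitiveRoot z (∏ i, q i) := by
    rw [← hord]; exact IsPrimitiveRoot.orderOf z
  have hdeg : (minpoly ℚ z).natDegree = ∏ i, (q i - 1) := by
    rw [← cyclotomic_eq_minpoly_rat hprim hNpos, natDegree_cyclotomic,
      totient_prod_primes Finset.univ q hq hinj]
  have hli : LinearIndependent ℚ (fun i : Fin (minpoly ℚ z).natDegree => z ^ (i : ℕ)) :=
    linearIndependent_pow z
  have hle : Submodule.span ℚ (Set.range fun i : Fin (minpoly ℚ z).natDegree => z ^ (i : ℕ)) ≤ V := by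
    rw [Submodule.span_le]
    rintro _ ⟨i, rfl⟩
    have := hmem (fun _ => (i : ℕ))
    simpa [hz, Finset.prod_pow] using this
  have : FiniteDimensional ℚ V := by
    rw [hV]; exact FiniteDimensional.span_of_finite ℚ (Set.finite_range b)
  have h3 := Submodule.finrank_mono hle
  rw [finrank_span_eq_card hli, Fintype.card_fin, hdeg] at h3
  have h4 : Fintype.card (∀ i, Fin (q i - 1)) = ∏ i, (q i - 1) := by
    rw [Fintype.card_pi]; simp
  rw [h4]
  exact h3

/-- Every element of the `p`-th cyclotomic field is a rational combination of the first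
`p - 1` powers of a primitive root of unity. -/
lemma mem_adjoin_small {p : ℕ} (hp : p.Prime) {z : ℂ} (hz : IsPrimitiveRoot z p) {x : ℂ}
    (hx : x ∈ IntermediateField.adjoin ℚ {z}) :
    ∃ c : Fin (p - 1) → ℚ, x = ∑ j : Fin (p - 1), (c j : ℂ) * z ^ (j : ℕ) := by
  have hint : IsIntegral ℚ z := (hz.isIntegral hp.pos).tower_top
  have hx2 : x ∈ (IntermediateField.adjoin ℚ {z}).toSubalgebra := hx
  rw [IntermediateField.adjoin_simple_toSubalgebra_of_isAlgebraic hint.isAlgebraic,
    Algebra.adjoin_singleton_eq_range_aeval] at hx2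
  obtain ⟨f, rfl⟩ := hx2
  choose c hc using fun a => pow_mem_small hp hz a
  refine ⟨fun j => ∑ i ∈ Finset.range (f.natDegree + 1), f.coeff i * c i j, ?_⟩
  have h1 : aeval z f = ∑ i ∈ Finset.range (f.natDegree + 1), (f.coeff i : ℂ) * z ^ i := by
    rw [aeval_eq_sum_range]
    apply Finset.sum_congr rfl
    intro i _
    rw [Algebra.smul_def]; simp
  change aeval z f = _
  rw [h1]
  have h2 : ∀ i ∈ Finset.range (f.natDegree + 1), (f.coeff i : ℂ) * z ^ i =
      ∑ j : Fin (p - 1), ((f.coeff i * c i j : ℚ) : ℂ) * z ^ (j : ℕ) := by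
    intro i _
    rw [hc i, Finset.mul_sum]
    apply Finset.sum_congr rfl
    intro j _
    push_cast
    ring
  rw [Finset.sum_congr rfl h2, Finset.sum_comm]
  apply Finset.sum_congr rfl
  intro j _
  rw [← Finset.sum_mul]
  push_cast
  rfl

/-- Products of independent families taken from cyclotomic fields of distinct prime
conductors are independent. -/
lemma gen_indep {ι : Type} [Fintype ι] [DecidableEq ι] (q : ι → ℕ) (d : ℕ)
    (hq : ∀ i, (q i).Prime) (hinj : Function.Injective q) (ζ : ι → ℂ)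
    (hζ : ∀ i, IsPrimitiveRoot (ζ i) (q i)) (b : ι → Fin d → ℂ)
    (hb : ∀ i e, b i e ∈ IntermediateField.adjoin ℚ {ζ i})
    (hli : ∀ i, LinearIndependent ℚ (b i)) :
    LinearIndependent ℚ (fun e : ι → Fin d => ∏ i, b i (e i)) := by
  have hcyc := cyclo_indep q hq hinj ζ hζ
  choose C hC using fun i e => mem_adjoin_small (hq i) (hζ i) (hb i e)
  -- left inverses
  have hG : ∀ i, ∃ G : ℂ →ₗ[ℚ] (Fin d → ℚ), ∀ e e', G (b i e) e' = if e = e' then 1 else 0 := by
    intro i
    have hker : LinearMap.ker (Fintype.linearCombination ℚ (b i)) = ⊥ := by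
      rw [LinearMap.ker_eq_bot']
      intro c hc
      rw [Fintype.linearCombination_apply] at hc
      funext e
      exact Fintype.linearIndependent_iff.mp (hli i) c hc e
    obtain ⟨G, hG⟩ := LinearMap.exists_leftInverse_of_injective _ hker
    refine ⟨G, fun e e' => ?_⟩
    have h1 : Fintype.linearCombination ℚ (b i) (Pi.single e 1) = b i e := by
      rw [Fintype.linearCombination_apply_single]; simp
    have h2 := LinearMap.congr_fun hG (Pi.single e (1 : ℚ))
    rw [LinearMap.comp_apply, h1, LinearMap.id_apply] at h2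
    rw [h2, Pi.single_apply]
    by_cases h : e = e'
    · subst h; simp
    · rw [if_neg h, if_neg (fun h' => h h'.symm)]
  choose G hG using hG
  have hGC : ∀ i e e', ∑ j, C i e j * G i (ζ i ^ (j : ℕ)) e' = if e = e' then 1 else 0 := by
    intro i e e'
    rw [← hG i e e']
    conv_rhs => rw [hC i e, map_sum]
    rw [Finset.sum_apply]
    apply Finset.sum_congr rfl
    intro j _
    have h1 : (C i e j : ℂ) * ζ i ^ (j : ℕ) = C i e j • ζ i ^ (j : ℕ) := by
      rw [Algebra.smul_def]; simp
    rw [h1, map_smul, Pi.smul_apply, smul_eq_mul]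
  rw [Fintype.linearIndependent_iff]
  intro lam hlam e'
  -- expand
  have hexp : ∀ e : ι → Fin d, ∏ i, b i (e i) =
      ∑ a : (∀ i, Fin (q i - 1)), (((∏ i, C i (e i) (a i)) : ℚ) : ℂ) * ∏ i, ζ i ^ (a i : ℕ) := by
    intro e
    calc ∏ i, b i (e i) = ∏ i, ∑ j : Fin (q i - 1), (C i (e i) j : ℂ) * ζ i ^ (j : ℕ) :=
          Finset.prod_congr rfl (fun i _ => hC i (e i))
      _ = ∑ a ∈ Fintype.piFinset (fun i => (Finset.univ : Finset (Fin (q i - 1)))),
            ∏ i, ((C i (e i) (a i) : ℂ) * ζ i ^ (a i : ℕ)) := Finset.prod_univ_sum _ _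
      _ = _ := by
          rw [Fintype.piFinset_univ]
          apply Finset.sum_congr rfl
          intro a _
          rw [Finset.prod_mul_distrib]
          push_cast
          rfl
  have hzero : ∑ a : (∀ i, Fin (q i - 1)),
      (∑ e : ι → Fin d, lam e * ∏ i, C i (e i) (a i)) • ∏ i, ζ i ^ (a i : ℕ) = 0 := by
    rw [← hlam]
    simp_rw [Finset.sum_smul]
    rw [Finset.sum_comm]
    apply Finset.sum_congr rfl
    intro e _
    rw [hexp e, Finset.smul_sum]
    apply Finset.sum_congr rfl
    intro a _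
    rw [Algebra.smul_def, Algebra.smul_def]
    simp only [eq_ratCast]
    push_cast
    ring
  have hall := Fintype.linearIndependent_iff.mp hcyc _ hzero
  -- contract with the left inverses
  have hfin : ∑ a : (∀ i, Fin (q i - 1)),
      (∑ e : ι → Fin d, lam e * ∏ i, C i (e i) (a i)) * ∏ i, G i (ζ i ^ (a i : ℕ)) (e' i) = 0 := by
    apply Finset.sum_eq_zero
    intro a _
    rw [hall a, zero_mul]
  have hsw : ∑ a : (∀ i, Fin (q i - 1)),
      (∑ e : ι → Fin d, lam e * ∏ i, C i (e i) (a i)) * ∏ i, G i (ζ i ^ (a i : ℕ)) (e' i) =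
      ∑ e : ι → Fin d, lam e * ∏ i, (if e i = e' i then (1 : ℚ) else 0) := by
    simp_rw [Finset.sum_mul]
    rw [Finset.sum_comm]
    apply Finset.sum_congr rfl
    intro e _
    have h1 : ∏ i, (if e i = e' i then (1 : ℚ) else 0) =
        ∑ a : (∀ i, Fin (q i - 1)), ∏ i, (C i (e i) (a i) * G i (ζ i ^ (a i : ℕ)) (e' i)) := by
      calc ∏ i, (if e i = e' i then (1 : ℚ) else 0) =
          ∏ i, ∑ j : Fin (q i - 1), C i (e i) j * G i (ζ i ^ (j : ℕ)) (e' i) :=
            Finset.prod_congr rfl (fun i _ => (hGC i (e i) (e' i)).symm)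
        _ = ∑ a ∈ Fintype.piFinset (fun i => (Finset.univ : Finset (Fin (q i - 1)))),
            ∏ i, (C i (e i) (a i) * G i (ζ i ^ (a i : ℕ)) (e' i)) :=
            Finset.prod_univ_sum _ _
        _ = _ := by rw [Fintype.piFinset_univ]
    rw [h1, Finset.mul_sum]
    apply Finset.sum_congr rfl
    intro a _
    rw [Finset.prod_mul_distrib]
    ring
  rw [hsw] at hfin
  rw [Finset.sum_eq_single e'] at hfin
  · simpa using hfin
  · intro e _ hne
    have : ∃ i, e i ≠ e' i := by
      by_contra h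
      exact hne (funext fun i => not_not.mp (fun hi => h ⟨i, hi⟩))
    obtain ⟨i, hi⟩ := this
    rw [Finset.prod_eq_zero (Finset.mem_univ i) (if_neg hi), mul_zero]
  · intro h
    exact absurd (Finset.mem_univ _) h

/-- Monomials with exponents `< d` in elements of degree `≥ d` of cyclotomic fields of distinct
prime conductors are linearly independent over the rationals. -/
lemma mono_indep {ι : Type} [Fintype ι] [DecidableEq ι] (q : ι → ℕ) (d : ℕ)
    (hq : ∀ i, (q i).Prime) (hinj : Function.Injective q) (ζ : ι → ℂ)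
    (hζ : ∀ i, IsPrimitiveRoot (ζ i) (q i)) (z : ι → ℂ)
    (hz : ∀ i, z i ∈ IntermediateField.adjoin ℚ {ζ i})
    (hdeg : ∀ i, d ≤ (minpoly ℚ (z i)).natDegree) :
    LinearIndependent ℚ (fun e : ι → Fin d => ∏ i, z i ^ (e i : ℕ)) := by
  apply gen_indep q d hq hinj ζ hζ (fun i e => z i ^ (e : ℕ))
  · intro i e
    exact pow_mem (hz i) _
  · intro i
    exact (linearIndependent_pow (K := ℚ) (z i)).comp (Fin.castLE (hdeg i)) (Fin.castLE_injective _)

end Pool.Agent.Lib.MP_0775d3_lc
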