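import Mathlib

set_option autoImplicit false

namespace Pool.Agent.Lib.MP_0775d3_lc

open Finset

/-- The rational span of `1` and the parameters `y`. -/
noncomputable def paramSpan {P : Type} (y : P → ℂ) : Submodule ℚ ℂ :=
  Submodule.span ℚ (Set.range (fun o : Option P => o.elim 1 y))

lemma one_mem_paramSpan {P : Type} (y : P → ℂ) : (1 : ℂ) ∈ paramSpan y :=
  Submodule.subset_span ⟨none, rfl⟩

lemma param_mem_paramSpan {P : Type} (y : P → ℂ) (j : P) : y j ∈ paramSpan y :=
  Submodule.subset_span ⟨some j, rfl⟩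

lemma one_le_paramSpan {P : Type} (y : P → ℂ) : (1 : Submodule ℚ ℂ) ≤ paramSpan y := by
  rw [Submodule.one_le]
  exact one_mem_paramSpan y

lemma paramSpan_pow_mono {P : Type} (y : P → ℂ) {a b : ℕ} (h : a ≤ b) :
    paramSpan y ^ a ≤ paramSpan y ^ b :=
  pow_le_pow_right' (one_le_paramSpan y) h

lemma paramSpan_pow_eq {P : Type} [Fintype P] [DecidableEq P] (y : P → ℂ) (E : ℕ) :
    paramSpan y ^ E ≤ Submodule.span ℚ
      (Set.range (fun m : Sym (Option P) E => (m.1.map (fun o : Option P => o.elim 1 y)).prod)) := by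
  unfold paramSpan
  rw [Submodule.span_pow]
  apply Submodule.span_mono
  intro x hx
  rw [Set.mem_pow] at hx
  obtain ⟨f, rfl⟩ := hx
  choose g hg using fun i => (f i).2
  refine ⟨⟨(List.ofFn g : List (Option P)), by simp⟩, ?_⟩
  simp only [Multiset.map_coe, Multiset.prod_coe, List.map_ofFn]
  congr 1
  apply congrArg
  funext i
  exact hg i

lemma finrank_paramSpan_pow {P : Type} [Fintype P] [DecidableEq P] (y : P → ℂ) (E : ℕ) :
    Module.finrank ℚ (paramSpan y ^ E : Submodule ℚ ℂ) ≤ (Fintype.card P + E).choose E := by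
  have h1 : Module.finrank ℚ (paramSpan y ^ E : Submodule ℚ ℂ) ≤
      Module.finrank ℚ (Submodule.span ℚ
      (Set.range (fun m : Sym (Option P) E => (m.1.map (fun o : Option P => o.elim 1 y)).prod))) := by
    have : FiniteDimensional ℚ (Submodule.span ℚ
      (Set.range (fun m : Sym (Option P) E => (m.1.map (fun o : Option P => o.elim 1 y)).prod))) :=
      FiniteDimensional.span_of_finite ℚ (Set.finite_range _)
    exact Submodule.finrank_mono (paramSpan_pow_eq y E)
  refine h1.trans ((finrank_range_le_card _).trans ?_)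
  rw [Sym.card_sym_eq_choose, Fintype.card_option]
  have : Fintype.card P + 1 + E - 1 = Fintype.card P + E := by omega
  rw [this]

instance finiteDimensional_paramSpan_pow {P : Type} [Fintype P] [DecidableEq P] (y : P → ℂ) (E : ℕ) :
    FiniteDimensional ℚ (paramSpan y ^ E : Submodule ℚ ℂ) := by
  have : FiniteDimensional ℚ (Submodule.span ℚ
      (Set.range (fun m : Sym (Option P) E => (m.1.map (fun o : Option P => o.elim 1 y)).prod))) :=
      FiniteDimensional.span_of_finite ℚ (Set.finite_range _)
  exact Submodule.finiteDimensional_of_le (paramSpan_pow_eq y E)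

lemma prod_mem_const_pow {G : Type} (s : Finset G) (N : Submodule ℚ ℂ) (f : G → ℂ)
    (h : ∀ g ∈ s, f g ∈ N) : ∏ g ∈ s, f g ∈ N ^ s.card := by
  classical
  induction s using Finset.induction_on with
  | empty => simp [Submodule.one_le.mp le_rfl]
  | insert a s ha ih =>
    rw [Finset.prod_insert ha, Finset.card_insert_of_notMem ha, pow_succ, mul_comm (f a)]
    exact Submodule.mul_mem_mul (ih fun g hg => h g (Finset.mem_insert_of_mem hg))
      (h a (Finset.mem_insert_self a s))

/-- Counting lemma: if the values `z i` are, up to the common nonzero factor `Δ`, combinations of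
products of at most `D` parameters, and the monomials in `z` with exponents `< d` are linearly
independent over `ℚ`, then there cannot be too many of them. -/
lemma counting {P G : Type} [Fintype P] [DecidableEq P] [Fintype G] [DecidableEq G]
    (y : P → ℂ) (z : G → ℂ) (Δ : ℂ) (hΔ : Δ ≠ 0) (d D : ℕ)
    (hΔm : Δ ∈ paramSpan y ^ D)
    (hz : ∀ g, Δ * z g ∈ paramSpan y ^ D)
    (hli : LinearIndependent ℚ (fun e : G → Fin d => ∏ g, z g ^ (e g : ℕ))) :
    d ^ Fintype.card G ≤
      (Fintype.card P + D * ((d - 1) * Fintype.card G)).choose (D * ((d - 1) * Fintype.card G)) := by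
  set E := D * ((d - 1) * Fintype.card G) with hE
  set T := (d - 1) * Fintype.card G with hT
  -- scaled monomials
  have hmem : ∀ e : G → Fin d, Δ ^ T * ∏ g, z g ^ (e g : ℕ) ∈ paramSpan y ^ E := by
    intro e
    have h1 : Δ ^ T * ∏ g, z g ^ (e g : ℕ) =
        ∏ g, (Δ ^ (d - 1 - (e g : ℕ)) * (Δ * z g) ^ (e g : ℕ)) := by
      have h2 : ∀ g, Δ ^ (d - 1 - (e g : ℕ)) * (Δ * z g) ^ (e g : ℕ) = Δ ^ (d - 1) * z g ^ (e g : ℕ) := by
        intro g
        have h3 : (e g : ℕ) ≤ d - 1 := by have := (e g).2; omega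
        rw [mul_pow, ← mul_assoc, ← pow_add, Nat.sub_add_cancel h3]
      rw [Finset.prod_congr rfl (fun g _ => h2 g), Finset.prod_mul_distrib, Finset.prod_const,
        Finset.card_univ, ← pow_mul]
    rw [h1]
    have h4 : paramSpan y ^ E = (paramSpan y ^ (D * (d - 1))) ^ (Finset.univ : Finset G).card := by
      rw [Finset.card_univ, ← pow_mul, hE, hT]
      congr 1
      ring
    rw [h4]
    apply prod_mem_const_pow
    intro g _
    have h3 : (e g : ℕ) ≤ d - 1 := by have := (e g).2; omega
    have h5 : D * (d - 1) = D * (d - 1 - (e g : ℕ)) + D * (e g : ℕ) := by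
      rw [← Nat.mul_add, Nat.sub_add_cancel h3]
    rw [h5, pow_add]
    apply Submodule.mul_mem_mul
    · rw [pow_mul]; exact Submodule.pow_mem_pow _ hΔm _
    · rw [pow_mul]; exact Submodule.pow_mem_pow _ (hz g) _
  have hli2 : LinearIndependent ℚ (fun e : G → Fin d => Δ ^ T * ∏ g, z g ^ (e g : ℕ)) := by
    have hker : LinearMap.ker (LinearMap.mulLeft ℚ (Δ ^ T)) = ⊥ := by
      rw [LinearMap.ker_eq_bot]
      intro a b hab
      simp only [LinearMap.mulLeft_apply] at hab
      exact mul_left_cancel₀ (pow_ne_zero T hΔ) hab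
    exact hli.map' (LinearMap.mulLeft ℚ (Δ ^ T)) hker
  have hle : Submodule.span ℚ (Set.range (fun e : G → Fin d => Δ ^ T * ∏ g, z g ^ (e g : ℕ)))
      ≤ paramSpan y ^ E := by
    rw [Submodule.span_le]
    rintro _ ⟨e, rfl⟩
    exact hmem e
  have h6 := Submodule.finrank_mono hle
  rw [finrank_span_eq_card hli2, Fintype.card_fun, Fintype.card_fin] at h6
  exact h6.trans (finrank_paramSpan_pow y E)

end Pool.Agent.Lib.MP_0775d3_lc
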