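import Mathlib

set_option autoImplicit false

namespace Pool.Agent.Lib.MP_0775d3_lc

open Finset

/-- A matrix of rank at most `r` has `r` rows spanning all rows. -/
lemma exists_row_set {n r : ℕ} (R : Matrix (Fin n) (Fin n) ℂ) (hR : R.rank ≤ r) (hr : r ≤ n) :
    ∃ I : Finset (Fin n), I.card = r ∧ ∃ X : Fin n → Fin n → ℂ,
      ∀ u v, R u v = ∑ k ∈ I, X u k * R k v := by
  classical
  obtain ⟨κ, a, ha, hsp, hli⟩ := exists_linearIndependent' ℂ (fun u => R u)
  have hfin : Finite κ := Finite.of_injective a ha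
  cases nonempty_fintype κ
  have hcard : (Finset.univ.image a).card ≤ r := by
    rw [Finset.card_image_of_injective _ ha, Finset.card_univ]
    have h1 := finrank_span_eq_card hli
    rw [hsp] at h1
    rw [← h1]
    have h2 := Matrix.rank_eq_finrank_span_row R
    calc _ = R.rank := by rw [h2]; rfl
      _ ≤ r := hR
  obtain ⟨I, hI, hIr⟩ := Finset.exists_superset_card_eq hcard (by simpa using hr)
  refine ⟨I, hIr, ?_⟩
  have hspan : ∀ u, R u ∈ Submodule.span ℂ ((fun u => R u) '' (I : Set (Fin n))) := by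
    intro u
    have h1 : R u ∈ Submodule.span ℂ (Set.range ((fun u => R u) ∘ a)) := by
      rw [hsp]; exact Submodule.subset_span ⟨u, rfl⟩
    refine Submodule.span_mono ?_ h1
    rintro _ ⟨k, rfl⟩
    exact ⟨a k, hI (Finset.mem_image_of_mem _ (Finset.mem_univ k)), rfl⟩
  have hex : ∀ u, ∃ c : Fin n → ℂ, ∑ i ∈ I, c i • R i = R u := fun u =>
    (Submodule.mem_span_image_finset_iff_exists_fun' ℂ).mp (hspan u)
  choose X hX using hex
  refine ⟨X, fun u v => ?_⟩
  have := congrFun (hX u) v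
  rw [← this, Finset.sum_apply]
  rfl

/-- Logarithmic form of the counting inequality. -/
lemma log_bound {M p E d : ℕ} (hd : 1 ≤ d) (hp : 0 < p) (Y : ℝ) (hY : ((p + E : ℕ) : ℝ) ≤ Y)
    (h : d ^ M ≤ (p + E).choose E) :
    (M : ℝ) * Real.log d ≤ p * (1 + Real.log (Y / p)) := by
  have hp' : (0 : ℝ) < p := by exact_mod_cast hp
  have hpE : (0 : ℝ) < ((p + E : ℕ) : ℝ) := by positivity
  have hYpos : 0 < Y := lt_of_lt_of_le hpE hY
  have h1 : ((d : ℝ)) ^ M ≤ (Real.exp 1 * (Y / p)) ^ p := by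
    have hch : ((p + E).choose E : ℝ) ≤ ((p + E : ℕ) : ℝ) ^ p / (p.factorial : ℝ) := by
      rw [Nat.choose_symm_add.symm]
      exact Nat.choose_le_pow_div p (p + E)
    have hfac : (p : ℝ) ^ p / (p.factorial : ℝ) ≤ Real.exp p :=
      Real.pow_div_factorial_le_exp (x := (p : ℝ)) hp'.le p
    have hfpos : (0 : ℝ) < p.factorial := by exact_mod_cast Nat.factorial_pos p
    have h2 : ((p + E : ℕ) : ℝ) ^ p / (p.factorial : ℝ) ≤ (Real.exp 1 * (Y / p)) ^ p := by
      have h3 : (Real.exp 1 * (Y / p)) ^ p = Real.exp p * (Y ^ p / (p : ℝ) ^ p) := by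
        rw [mul_pow, div_pow, ← Real.exp_nat_mul, mul_one]
      rw [h3]
      have h4 : ((p + E : ℕ) : ℝ) ^ p ≤ Y ^ p := pow_le_pow_left₀ hpE.le hY p
      have hpp : (0 : ℝ) < (p : ℝ) ^ p := by positivity
      have h5 : (p : ℝ) ^ p ≤ Real.exp p * (p.factorial : ℝ) := by
        rwa [div_le_iff₀ hfpos] at hfac
      rw [mul_div_assoc', div_le_div_iff₀ hfpos hpp]
      calc ((p + E : ℕ) : ℝ) ^ p * (p : ℝ) ^ p ≤ Y ^ p * (Real.exp p * (p.factorial : ℝ)) := by
            apply mul_le_mul h4 h5 hpp.le (by positivity)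
        _ = Real.exp p * Y ^ p * (p.factorial : ℝ) := by ring
    calc ((d : ℝ)) ^ M = ((d ^ M : ℕ) : ℝ) := by push_cast; rfl
      _ ≤ ((p + E).choose E : ℝ) := by exact_mod_cast h
      _ ≤ _ := hch
      _ ≤ _ := h2
  have hdpos : (0 : ℝ) < d := by exact_mod_cast hd
  have h2 := Real.log_le_log (by positivity) h1
  rw [Real.log_pow, Real.log_pow, Real.log_mul (Real.exp_pos 1).ne' (by positivity),
    Real.log_exp] at h2
  exact h2

/-- Numerical consequence of the counting inequality used for sparse patterns. -/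
lemma sparse_bound {M p d ρ : ℕ} (hd : 2 ≤ d)
    (hcount : d ^ M ≤ (p + (ρ + 2) * ((d - 1) * M)).choose ((ρ + 2) * ((d - 1) * M))) :
    ((M : ℝ) - p) * Real.log d ≤ M * (1 + Real.log (ρ + 3)) := by
  have hlogd : 0 < Real.log d := Real.log_pos (by exact_mod_cast hd)
  have hρ : (0 : ℝ) ≤ ρ := Nat.cast_nonneg _
  have hlog3 : 0 ≤ Real.log ((ρ : ℝ) + 3) := Real.log_nonneg (by linarith)
  rcases Nat.eq_zero_or_pos p with hp0 | hppos
  · rw [hp0, Nat.zero_add, Nat.choose_self] at hcount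
    have hM0 : M = 0 := by
      by_contra hne
      have : 1 < d ^ M := Nat.one_lt_pow hne (by omega)
      omega
    rw [hM0, hp0]; simp
  rcases le_or_gt M p with hle | hlt
  · have h1 : (M : ℝ) - p ≤ 0 := by
      have : (M : ℝ) ≤ p := by exact_mod_cast hle
      linarith
    have h2 : ((M : ℝ) - p) * Real.log d ≤ 0 := mul_nonpos_of_nonpos_of_nonneg h1 hlogd.le
    have h3 : 0 ≤ (M : ℝ) * (1 + Real.log (ρ + 3)) := by positivity
    linarith
  have hpR : (0 : ℝ) < p := by exact_mod_cast hppos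
  have hMpos : (0 : ℝ) < M := by exact_mod_cast (lt_trans hppos hlt)
  have hltR : (p : ℝ) ≤ M := by exact_mod_cast hlt.le
  have hY : ((p + (ρ + 2) * ((d - 1) * M) : ℕ) : ℝ) ≤ d * ((ρ + 3) * M) := by
    have h1 : p + (ρ + 2) * ((d - 1) * M) ≤ d * ((ρ + 3) * M) := by
      obtain ⟨d', rfl⟩ : ∃ d', d = d' + 1 := ⟨d - 1, by omega⟩
      simp only [Nat.add_sub_cancel]
      have h0 : p ≤ M := hlt.le
      nlinarith [Nat.zero_le (d' * M), Nat.zero_le (ρ * M)]
    exact_mod_cast h1
  have hlog := log_bound (by omega) hppos _ hY hcount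
  have hdpos : (0 : ℝ) < d := by positivity
  have hexp : Real.log (d * ((ρ + 3) * M) / p) =
      Real.log d + Real.log (ρ + 3) + Real.log ((M : ℝ) / p) := by
    rw [mul_div_assoc, mul_div_assoc, Real.log_mul (by positivity) (by positivity),
      Real.log_mul (by positivity) (by positivity)]
    ring
  rw [hexp] at hlog
  have hxlog : (p : ℝ) * Real.log ((M : ℝ) / p) ≤ (M : ℝ) - p := by
    have h1 := Real.log_le_sub_one_of_pos (show 0 < (M : ℝ) / p by positivity)
    have h2 := mul_le_mul_of_nonneg_left h1 hpR.le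
    calc _ ≤ _ := h2
      _ = (M : ℝ) - p := by field_simp
  have hmm : (p : ℝ) * Real.log (ρ + 3) ≤ M * Real.log (ρ + 3) :=
    mul_le_mul_of_nonneg_right hltR hlog3
  have e1 : (p : ℝ) * (1 + (Real.log d + Real.log (ρ + 3) + Real.log ((M : ℝ) / p))) =
      p + p * Real.log d + p * Real.log (ρ + 3) + p * Real.log ((M : ℝ) / p) := by ring
  rw [e1] at hlog
  have e2 : ((M : ℝ) - p) * Real.log d = M * Real.log d - p * Real.log d := by ring
  have e3 : (M : ℝ) * (1 + Real.log (ρ + 3)) = M + M * Real.log (ρ + 3) := by ring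
  rw [e2, e3]
  linarith

end Pool.Agent.Lib.MP_0775d3_lc
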