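import Pool.Agent.Lib.MP_0775d3_lc.Dim

set_option autoImplicit false

namespace Pool.Agent.Lib.MP_0775d3_lc

open Finset

/-- Every matrix has an invertible submatrix of size its rank, and the rows of that submatrix
span all rows. -/
lemma exists_skeleton {n : ℕ} (L : Matrix (Fin n) (Fin n) ℂ) :
    ∃ (κ : Type) (_ : Fintype κ) (_ : DecidableEq κ) (a b : κ → Fin n),
      Fintype.card κ = L.rank ∧ (L.submatrix a b).det ≠ 0 ∧
      ∀ u, ∃ x : κ → ℂ, ∀ v, L u v = ∑ k, x k * L (a k) v := by
  classical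
  obtain ⟨κ, a, ha, hsp, hli⟩ := exists_linearIndependent' ℂ (fun u => L u)
  have hfin : Finite κ := Finite.of_injective a ha
  cases nonempty_fintype κ
  have hcardκ : Fintype.card κ = L.rank := by
    have h1 := finrank_span_eq_card hli
    rw [hsp] at h1
    rw [← h1, Matrix.rank_eq_finrank_span_row L]
    rfl
  set L' : Matrix κ (Fin n) ℂ := L.submatrix a id with hL'
  have hrank' : L'.rank = Fintype.card κ := by
    apply LinearIndependent.rank_matrix
    exact hli
  obtain ⟨κ', b, hb, hsp', hli'⟩ := exists_linearIndependent' ℂ (fun v => L'.transpose v)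
  have hfin' : Finite κ' := Finite.of_injective b hb
  cases nonempty_fintype κ'
  have hcardκ' : Fintype.card κ' = Fintype.card κ := by
    have h1 := finrank_span_eq_card hli'
    rw [hsp'] at h1
    rw [← h1, ← hrank', Matrix.rank_eq_finrank_span_cols L']
    rfl
  let e : κ ≃ κ' := Fintype.equivOfCardEq hcardκ'.symm
  refine ⟨κ, inferInstance, Classical.decEq κ, a, b ∘ e, hcardκ, ?_, ?_⟩
  · have h1 : LinearIndependent ℂ (L.submatrix a (b ∘ e)).col := by
      have h2 := hli'.comp e e.injective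
      exact h2
    rw [Matrix.linearIndependent_cols_iff_isUnit, Matrix.isUnit_iff_isUnit_det, isUnit_iff_ne_zero] at h1
    exact h1
  · intro u
    have h1 : L u ∈ Submodule.span ℂ (Set.range ((fun u => L u) ∘ a)) := by
      rw [hsp]; exact Submodule.subset_span ⟨u, rfl⟩
    rw [Submodule.mem_span_range_iff_exists_fun] at h1
    obtain ⟨x, hx⟩ := h1
    refine ⟨x, fun v => ?_⟩
    rw [← hx, Finset.sum_apply]
    rfl

lemma det_mem_pow {κ : Type} [Fintype κ] [DecidableEq κ] (W : Submodule ℚ ℂ)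
    (B : Matrix κ κ ℂ) (hB : ∀ i j, B i j ∈ W) : B.det ∈ W ^ Fintype.card κ := by
  rw [Matrix.det_apply]
  apply Submodule.sum_mem
  intro σ _
  have h1 : ∏ i, B (σ i) i ∈ W ^ Fintype.card κ := by
    rw [← Finset.card_univ]
    exact prod_mem_const_pow _ W _ (fun g _ => hB _ _)
  rcases Int.units_eq_one_or (Equiv.Perm.sign σ) with h | h <;> rw [h]
  · simpa using h1
  · simpa using Submodule.neg_mem _ h1

lemma schur_mem {n : ℕ} (L : Matrix (Fin n) (Fin n) ℂ) {κ : Type} [Fintype κ] [DecidableEq κ]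
    (a b : κ → Fin n) (W : Submodule ℚ ℂ) (h1W : (1 : ℂ) ∈ W)
    (hrow : ∀ k v, L (a k) v ∈ W) (hcol : ∀ u k, L u (b k) ∈ W)
    (hspan : ∀ u, ∃ x : κ → ℂ, ∀ v, L u v = ∑ k, x k * L (a k) v) (u v : Fin n) :
    (L.submatrix a b).det * L u v ∈ W ^ (Fintype.card κ + 2) := by
  obtain ⟨x, hx⟩ := hspan u
  set B := L.submatrix a b with hB
  have h1 : (fun j => L u (b j)) = Matrix.vecMul x B := by
    funext j
    rw [hx (b j)]
    rfl
  have h2 : Matrix.vecMul (fun j => L u (b j)) B.adjugate = B.det • x := by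
    rw [h1, Matrix.vecMul_vecMul, Matrix.mul_adjugate, Matrix.vecMul_smul, Matrix.vecMul_one]
  have h3 : B.det * L u v = ∑ k, (Matrix.vecMul (fun j => L u (b j)) B.adjugate) k * L (a k) v := by
    rw [h2, hx v, Finset.mul_sum]
    apply Finset.sum_congr rfl
    intro k _
    rw [Pi.smul_apply, smul_eq_mul]
    ring
  rw [h3]
  apply Submodule.sum_mem
  intro k _
  have hpow : W ^ (Fintype.card κ + 2) = (W ^ Fintype.card κ * W) * W := by
    rw [pow_succ, pow_succ]
  rw [hpow]
  refine Submodule.mul_mem_mul ?_ (hrow k v)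
  have hvm : (Matrix.vecMul (fun j => L u (b j)) B.adjugate) k =
      ∑ j, B.adjugate j k * L u (b j) := by
    simp only [Matrix.vecMul, dotProduct]
    exact Finset.sum_congr rfl (fun j _ => mul_comm _ _)
  rw [hvm]
  apply Submodule.sum_mem
  intro j _
  refine Submodule.mul_mem_mul ?_ (hcol u j)
  rw [Matrix.adjugate_apply]
  apply det_mem_pow
  intro i i'
  rw [Matrix.updateRow_apply]
  split_ifs
  · rw [Pi.single_apply]
    split_ifs
    · exact h1W
    · exact W.zero_mem
  · exact hrow i (b i')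

end Pool.Agent.Lib.MP_0775d3_lc
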